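import Mathlib

set_option autoImplicit false
open Filter Topology Finset

namespace Pool.Agent.H.MP_0396c7_an

noncomputable def lam (t : ℝ) : ℝ := Real.sqrt (1 + Real.log (1 + t))

noncomputable def GG (t : ℝ) : ℝ := Real.sin (lam t)

lemma lam_sq {t : ℝ} (ht : 0 ≤ t) : lam t ^ 2 = 1 + Real.log (1 + t) :=
  Real.sq_sqrt (by have := Real.log_nonneg (by linarith : 1 ≤ 1 + t); linarith)

lemma lam_ge {t : ℝ} (ht : 0 ≤ t) : 1 ≤ lam t :=
  Real.le_sqrt_of_sq_le (by have := Real.log_nonneg (by linarith : 1 ≤ 1 + t); linarith)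

lemma G_diff {s t : ℝ} (hs : 0 ≤ s) (ht : 0 ≤ t) :
    |GG s - GG t| * (lam s + lam t) ≤ |Real.log (1 + s) - Real.log (1 + t)| := by
  have h1 := Real.abs_sin_sub_sin_le (lam s) (lam t)
  have h2 := lam_ge hs
  have h3 := lam_ge ht
  have e : Real.log (1 + s) - Real.log (1 + t) = (lam s - lam t) * (lam s + lam t) := by
    linear_combination lam_sq ht - lam_sq hs
  rw [e, abs_mul, abs_of_pos (by linarith : 0 < lam s + lam t)]
  exact mul_le_mul_of_nonneg_right h1 (by linarith)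

lemma log_le {s t c : ℝ} (hs : 0 ≤ s) (ht : 0 ≤ t) (h : 1 + s ≤ (1 + c) * (1 + t)) :
    Real.log (1 + s) - Real.log (1 + t) ≤ c := by
  rw [← Real.log_div (by positivity) (by positivity)]
  refine (Real.log_le_sub_one_of_pos (by positivity)).trans ?_
  rw [sub_le_iff_le_add, div_le_iff₀ (by positivity)]; linarith

lemma G_lip {s t : ℝ} (hs : 0 ≤ s) (ht : 0 ≤ t) : |GG s - GG t| ≤ |s - t| := by
  have h1 := G_diff hs ht
  have h2 := lam_ge hs
  have h3 := lam_ge ht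
  have a1 := le_abs_self (s - t)
  have a2 := neg_abs_le (s - t)
  have a3 := abs_nonneg (s - t)
  have h4 : |Real.log (1 + s) - Real.log (1 + t)| ≤ |s - t| := by
    rw [abs_le]
    have := log_le hs ht (c := |s - t|) (by nlinarith)
    have := log_le ht hs (c := |s - t|) (by nlinarith)
    constructor <;> linarith
  nlinarith [abs_nonneg (GG s - GG t)]

lemma G_slow (η : ℝ) (hη : 0 < η) : ∃ R : ℝ, 0 < R ∧ ∀ s t : ℝ, R ≤ s → R ≤ t → s ≤ 2 * t → t ≤ 2 * s →
    |GG s - GG t| ≤ η := by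
  refine ⟨Real.exp ((1 / η) ^ 2), Real.exp_pos _, fun s t hs ht h1 h2 => ?_⟩
  have s0 : 0 ≤ s := (Real.exp_pos _).le.trans hs
  have t0 : 0 ≤ t := (Real.exp_pos _).le.trans ht
  have h3 := G_diff s0 t0
  have h4 : |Real.log (1 + s) - Real.log (1 + t)| ≤ 1 := by
    rw [abs_le]
    have := log_le s0 t0 (c := 1) (by linarith)
    have := log_le t0 s0 (c := 1) (by linarith)
    constructor <;> linarith
  have h5 : 1 / η ≤ lam s := by
    refine Real.le_sqrt_of_sq_le ?_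
    have := (Real.le_log_iff_exp_le (by linarith : 0 < 1 + s)).2 (hs.trans (by linarith))
    linarith
  have h6 := lam_ge t0
  rw [div_le_iff₀ hη] at h5
  by_contra hh
  push Not at hh
  nlinarith [lam_ge s0]

lemma G_val (u : ℝ) (hu : 1 ≤ u) : ∃ t, u - 1 ≤ t ∧ GG t = Real.sin u := by
  refine ⟨Real.exp (u ^ 2 - 1) - 1, ?_, ?_⟩
  · have := Real.add_one_le_exp (u ^ 2 - 1); nlinarith
  · simp [GG, lam, Real.sqrt_sq (by linarith : 0 ≤ u)]

variable {H : Type*} [NormedAddCommGroup H] [InnerProductSpace ℝ H]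

lemma perc {ι : Type} [Nonempty ι] (y : ι → H) (B γ : ℝ) (hB : 0 < B) (hγ : 0 < γ)
    (hy : ∀ i, ‖y i‖ ≤ B) (K : ℕ) : ∀ p : H, ‖p‖ ^ 2 ≤ (K + 1) * (γ ^ 2 / B ^ 2) →
    ∃ l : Fin K → ι × Fin 3, ∀ i,
      |inner ℝ (p - ∑ k, (γ / B ^ 2 * (((l k).2 : ℝ) - 1)) • y (l k).1) (y i)| ≤ γ := by
  induction K with
  | zero =>
    intro p hp
    refine ⟨Fin.elim0, fun i => ?_⟩
    have h1 : ‖p‖ ≤ γ / B := (abs_le_of_sq_le_sq' (by rw [div_pow]; simpa using hp) (by positivity)).2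
    simp only [univ_eq_empty, sum_empty, sub_zero]
    refine (abs_real_inner_le_norm _ _).trans ?_
    calc ‖p‖ * ‖y i‖ ≤ γ / B * B := by gcongr; exact hy i
      _ = γ := by field_simp
  | succ K ih =>
    intro p hp
    by_cases h : ∀ i, |inner ℝ p (y i)| ≤ γ
    · exact ⟨fun _ => (Classical.arbitrary ι, 1), fun i => by simpa using h i⟩
    push Not at h
    obtain ⟨i, hi⟩ := h
    obtain ⟨a, ha, ha2⟩ : ∃ a : Fin 3, γ ≤ ((a:ℝ) - 1) * inner ℝ p (y i) ∧ ((a:ℝ) - 1) ^ 2 = 1 := by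
      rcases lt_abs.1 hi with h | h
      · exact ⟨2, by norm_num; linarith, by norm_num⟩
      · exact ⟨0, by norm_num; linarith, by norm_num⟩
    obtain ⟨l, hl⟩ := ih (p - (γ / B ^ 2 * ((a : ℝ) - 1)) • y i) (by
      rw [@norm_sub_sq_real, inner_smul_right, norm_smul, mul_pow, Real.norm_eq_abs, sq_abs, mul_pow, ha2]
      have h1 : ‖y i‖ ^ 2 ≤ B ^ 2 := pow_le_pow_left₀ (norm_nonneg _) (hy i) 2
      have h2 : (γ / B ^ 2) ^ 2 * 1 * ‖y i‖ ^ 2 ≤ γ ^ 2 / B ^ 2 := by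
        calc _ ≤ (γ / B ^ 2) ^ 2 * 1 * B ^ 2 := by gcongr
          _ = _ := by field_simp
      have h3 : γ ^ 2 / B ^ 2 ≤ γ / B ^ 2 * ((a : ℝ) - 1) * inner ℝ p (y i) := by
        calc γ ^ 2 / B ^ 2 = γ / B ^ 2 * γ := by ring
          _ ≤ γ / B ^ 2 * (((a:ℝ) - 1) * inner ℝ p (y i)) := by gcongr
          _ = _ := by ring
      push_cast at hp
      linarith)
    refine ⟨Fin.cons (i, a) l, fun j => ?_⟩
    rw [Fin.sum_univ_succ]
    simpa [sub_sub] using hl j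

lemma discr (X γ : ℝ) (hγ : 0 < γ) (x : ℝ) (h0 : 0 ≤ x) (h1 : x ≤ X) :
    ∃ a : Fin (⌊X / γ⌋₊ + 1), |x - a * γ| ≤ γ := by
  refine ⟨⟨⌊x / γ⌋₊, Nat.lt_succ_of_le (Nat.floor_le_floor (by gcongr))⟩, ?_⟩
  have h2 := Nat.floor_le (by positivity : 0 ≤ x / γ)
  have h3 := Nat.lt_floor_add_one (x / γ)
  rw [le_div_iff₀ hγ] at h2
  rw [div_lt_iff₀ hγ] at h3
  rw [abs_le]; constructor <;> simp only <;> linarith

lemma sqrt_close {d D κ : ℝ} (hd : 0 ≤ d) (hκ : 0 ≤ κ) (h : |d ^ 2 - D| ≤ κ ^ 2) :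
    |d - Real.sqrt D| ≤ κ := by
  refine abs_le.2 (abs_le_of_sq_le_sq' ?_ hκ)
  have he := Real.sqrt_nonneg D
  rw [abs_le] at h
  rcases le_total 0 D with hD | hD
  · have := Real.sq_sqrt hD
    rcases le_total d (Real.sqrt D) with h1 | h1 <;> nlinarith
  · rw [Real.sqrt_eq_zero_of_nonpos hD]; nlinarith

lemma cover (η : ℝ) (hη : 0 < η) : ∃ K C : ℕ, ∀ (ι : Type) [Fintype ι] [Nonempty ι] (s : ι → H),
    ∃ S : Finset (ι → ℝ), S.card ≤ C * Fintype.card ι ^ K ∧
      ∀ p : H, ∃ v ∈ S, ∀ i, |GG ‖p - s i‖ - v i| ≤ η := by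
  classical
  obtain ⟨R, hR, hG⟩ := G_slow (η / 2) (half_pos hη)
  set γ := η ^ 2 / 3 with hγ
  have γ0 : 0 < γ := by positivity
  obtain ⟨K, hK⟩ := exists_nat_ge (R ^ 2 / (γ ^ 2 / (2 * R) ^ 2))
  set A1 := ⌊2 / (η / 2)⌋₊ + 1
  set A2 := ⌊R ^ 2 / γ⌋₊ + 1
  refine ⟨K + 2, A1 + A2 * 3 ^ K, fun ι _ _ s => ?_⟩
  let y : ι → ι → H := fun j i => if ‖s j - s i‖ < 2 * R then s i - s j else 0
  let f1 : ι × ι × Fin A1 → ι → ℝ := fun c i =>
    if ‖s c.1 - s i‖ ≤ ‖s c.1 - s c.2.1‖ then c.2.2 * (η / 2) - 1 else GG ‖s c.1 - s i‖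
  let f2 : ι × Fin A2 × (Fin K → ι × Fin 3) → ι → ℝ := fun c i =>
    if ‖s c.1 - s i‖ < 2 * R then GG (Real.sqrt (c.2.1 * γ - 2 * inner ℝ
      (∑ k, (γ / (2 * R) ^ 2 * (((c.2.2 k).2 : ℝ) - 1)) • y c.1 (c.2.2 k).1) (y c.1 i) + ‖y c.1 i‖ ^ 2))
    else GG ‖s c.1 - s i‖
  refine ⟨univ.image f1 ∪ univ.image f2, ?_, fun p => ?_⟩
  · refine (card_union_le _ _).trans ((add_le_add card_image_le card_image_le).trans ?_)
    simp only [card_univ, Fintype.card_prod, Fintype.card_fin, Fintype.card_fun]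
    have hM : 1 ≤ Fintype.card ι := Fintype.card_pos
    set M := Fintype.card ι
    have h1 : 1 ≤ M ^ K := Nat.one_le_pow _ _ hM
    calc M * (M * A1) + M * (A2 * (M * 3) ^ K) = A1 * (M * M * 1) + A2 * 3 ^ K * (M ^ K * M * 1) := by
          rw [mul_pow]; ring
      _ ≤ A1 * (M * M * M ^ K) + A2 * 3 ^ K * (M ^ K * M * M) := by gcongr
      _ = _ := by ring
  obtain ⟨j, -, hj⟩ := exists_min_image univ (fun i => ‖p - s i‖) univ_nonempty
  set r := ‖p - s j‖ with hr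
  have t1 : ∀ i, ‖s j - s i‖ ≤ r + ‖p - s i‖ := fun i => by
    have := norm_sub_le (p - s i) (p - s j)
    rw [show p - s i - (p - s j) = s j - s i by abel] at this; linarith
  have t2 : ∀ i, ‖p - s i‖ ≤ r + ‖s j - s i‖ := fun i => by
    have := norm_add_le (p - s j) (s j - s i)
    rwa [show p - s j + (s j - s i) = p - s i by abel] at this
  have t3 : ∀ i, r ≤ ‖p - s i‖ := fun i => hj i (mem_univ _)
  rcases le_or_gt R r with h | h
  · obtain ⟨j', hj1, hj2⟩ := exists_max_image (univ.filter (fun i => ‖s j - s i‖ ≤ r))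
      (fun i => ‖s j - s i‖) ⟨j, by simp [hr]⟩
    have hj1' := (mem_filter.1 hj1).2
    obtain ⟨a, ha⟩ := discr 2 (η / 2) (half_pos hη) (GG r + 1)
      (by have := Real.neg_one_le_sin (lam r); unfold GG; linarith)
      (by have := Real.sin_le_one (lam r); unfold GG; linarith)
    refine ⟨f1 (j, j', a), mem_union_left _ (mem_image_of_mem _ (mem_univ _)), fun i => ?_⟩
    have := t1 i; have := t2 i; have := t3 i
    simp only [f1]
    split_ifs with h1
    · have h2 := hG ‖p - s i‖ r (by linarith) h (by linarith) (by linarith)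
      rw [abs_le] at *
      constructor <;> linarith [h2.1, h2.2, ha.1, ha.2]
    · have h3 : r < ‖s j - s i‖ := by
        by_contra hh
        exact h1 (hj2 i (mem_filter.2 ⟨mem_univ _, not_lt.1 hh⟩))
      exact (hG _ _ (by linarith) (by linarith) (by linarith) (by linarith)).trans (by linarith)
  · have r0 : 0 ≤ r := norm_nonneg _
    obtain ⟨a, ha⟩ := discr (R ^ 2) γ γ0 (r ^ 2) (by positivity) (by gcongr)
    obtain ⟨l, hl⟩ := perc (y j) (2 * R) γ (by positivity) γ0 (fun i => by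
      simp only [y]; split_ifs with h1
      · rw [norm_sub_rev]; exact h1.le
      · simp [hR.le]) K (p - s j) (by
      rw [div_le_iff₀ (by positivity)] at hK
      have : r ^ 2 ≤ R ^ 2 := by gcongr
      have h2 : 0 < γ ^ 2 / (2 * R) ^ 2 := by positivity
      linarith)
    refine ⟨f2 (j, a, l), mem_union_right _ (mem_image_of_mem _ (mem_univ _)), fun i => ?_⟩
    have := t1 i; have := t2 i; have := t3 i
    simp only [f2]
    split_ifs with h1
    · refine (G_lip (norm_nonneg _) (Real.sqrt_nonneg _)).trans (sqrt_close (norm_nonneg _) hη.le ?_)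
      have h2 := hl i
      have e : p - s i = (p - s j) - y j i := by simp [y, h1]
      rw [inner_sub_left] at h2
      rw [e, @norm_sub_sq_real, ← hr]
      rw [abs_le] at *
      constructor <;> linarith [h2.1, h2.2, ha.1, ha.2]
    · push Not at h1
      exact (hG _ _ (by linarith) (by linarith) (by linarith) (by linarith)).trans (by linarith)

end Pool.Agent.H.MP_0396c7_an
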