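import Pool.Agent.H.MP_0396c7_an.A
import Pool.Agent.H.MP_7fb4a2_an.B

set_option autoImplicit false
open Filter Topology Finset
open Pool.Agent.H.MP_7fb4a2_an (ee ee_add ee_norm ee_sub ee_nat ee_zero)

namespace Pool.Agent.H.MP_0396c7_an

noncomputable def bc (n : ℤ) (k : ℕ) : ℂ := 2 ^ k * (ee (n / 2 ^ (k ^ 2)) - 1)

lemma bc_le (n : ℤ) (k : ℕ) : ‖bc n k‖ ≤ 2 ^ k * (2 * Real.pi * (|(n:ℝ)| / 2 ^ (k ^ 2))) := by
  have := ee_sub 0 (n / 2 ^ (k ^ 2))
  rw [zero_add, ee_zero, abs_div, abs_of_pos (by positivity : (0:ℝ) < 2 ^ (k ^ 2))] at this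
  rw [bc, norm_mul, norm_pow, Complex.norm_two]
  gcongr

lemma pw (j k : ℕ) (h : j + 2 * k ≤ k ^ 2 + 1) :
    (2:ℝ) ^ k * (2 ^ j / 2 ^ (k ^ 2)) ≤ 2 * (1 / 2) ^ k := by
  rw [one_div, inv_pow, ← div_eq_mul_inv, ← mul_div_assoc, div_le_div_iff₀ (by positivity) (by positivity),
    ← pow_add, ← pow_add, ← pow_succ']
  exact pow_le_pow_right₀ (by norm_num) (by omega)

lemma sq_sum (c : ℝ) : Summable (fun k : ℕ => (c * (1 / 2) ^ k) ^ 2) := by
  refine ((summable_geometric_of_lt_one (r := (1 / 2) ^ 2) (by norm_num) (by norm_num)).mul_left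
    (c ^ 2)).congr (fun k => ?_)
  rw [mul_pow, ← pow_mul, ← pow_mul, mul_comm k]

lemma bc_mem (n : ℤ) : Memℓp (bc n) 2 := by
  refine memℓp_gen ?_
  simp only [ENNReal.toReal_ofNat, Real.rpow_ofNat]
  refine Summable.of_nonneg_of_le (fun k => by positivity) (fun k => ?_) (sq_sum (4 * Real.pi * |(n:ℝ)|))
  refine pow_le_pow_left₀ (norm_nonneg _) ((bc_le n k).trans ?_) 2
  have := pw 0 k (by nlinarith [Nat.zero_le ((k - 1) ^ 2), sq_nonneg ((k:ℤ) - 1)])
  calc _ = 2 * Real.pi * |(n:ℝ)| * (2 ^ k * (2 ^ 0 / 2 ^ (k ^ 2))) := by ring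
    _ ≤ 2 * Real.pi * |(n:ℝ)| * (2 * (1 / 2) ^ k) := by gcongr
    _ = _ := by ring

noncomputable abbrev HH := lp (fun _ : ℕ => ℂ) 2

noncomputable def bb (n : ℤ) : HH := ⟨bc n, bc_mem n⟩

lemma nsq (f : HH) : ‖f‖ ^ 2 = ∑' k, ‖f k‖ ^ 2 := by
  have := lp.norm_rpow_eq_tsum (p := 2) (by norm_num) f
  simpa using this

lemma bb_sub (n m : ℤ) : ‖bb n - bb m‖ = ‖bb (n - m)‖ := by
  rw [← sq_eq_sq₀ (norm_nonneg _) (norm_nonneg _), nsq, nsq]
  congr 1
  funext k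
  congr 1
  change ‖bc n k - bc m k‖ = ‖bc (n - m) k‖
  have : bc n k - bc m k = ee (m / 2 ^ (k ^ 2)) * bc (n - m) k := by
    have h : (n:ℝ) / 2 ^ (k ^ 2) = m / 2 ^ (k ^ 2) + ((n - m : ℤ) : ℝ) / 2 ^ (k ^ 2) := by
      push_cast; ring
    rw [bc, bc, bc, h, ee_add]; ring
  rw [this, norm_mul, ee_norm, one_mul]

noncomputable def rho (n : ℕ) : ℝ := ‖bb n‖

lemma rho_nonneg (n : ℕ) : 0 ≤ rho n := norm_nonneg _

lemma rho_diff (n m : ℕ) : |rho (n + m) - rho n| ≤ rho m := by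
  refine (abs_norm_sub_norm_le _ _).trans (le_of_eq ?_)
  rw [bb_sub]; simp [rho]

lemma rho_zero : rho 0 = 0 := by
  have := bb_sub 0 0
  simpa [rho] using this.symm

lemma rho_le (m : ℕ) : rho m ≤ m * rho 1 := by
  induction m with
  | zero => simp [rho_zero]
  | succ m ih => have := (abs_le.1 (rho_diff m 1)).2; push_cast; linarith

lemma rho_unb (t : ℝ) : ∃ n, t ≤ rho n := by
  obtain ⟨k, hk⟩ := pow_unbounded_of_one_lt t (by norm_num : (1:ℝ) < 2)
  refine ⟨2 ^ ((k + 1) ^ 2 - 1), le_trans ?_ (lp.norm_apply_le_norm (by norm_num) _ (k + 1))⟩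
  change t ≤ ‖bc _ (k + 1)‖
  have h1 : (((2 ^ ((k + 1) ^ 2 - 1) : ℕ) : ℤ) : ℝ) / 2 ^ ((k + 1) ^ 2) = 1 / 2 := by
    obtain ⟨j, hj⟩ : ∃ j, (k + 1) ^ 2 = j + 1 := ⟨k ^ 2 + 2 * k, by ring⟩
    rw [hj]; push_cast; field_simp; ring
  have h2 : ee (1 / 2) = -1 := by
    unfold ee; rw [← Complex.exp_pi_mul_I]; congr 1; push_cast; ring
  rw [bc, h1, h2, norm_mul, norm_pow, Complex.norm_two, pow_succ]
  norm_num
  have : (0:ℝ) < 2 ^ k := by positivity
  linarith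

lemma rho_rec : Tendsto (fun k : ℕ => rho (2 ^ (k ^ 2))) atTop (𝓝 0) := by
  have hz : ∀ k l : ℕ, l ≤ k → bc ((2 ^ (k ^ 2) : ℕ) : ℤ) l = 0 := by
    intro k l h
    obtain ⟨j, hj⟩ := Nat.exists_eq_add_of_le (Nat.pow_le_pow_left h 2)
    have : (((2 ^ (k ^ 2) : ℕ) : ℤ) : ℝ) / 2 ^ (l ^ 2) = (2 ^ j : ℕ) := by
      rw [hj]; push_cast; field_simp; ring
    rw [bc, this, ee_nat]; simp
  have h1 : Tendsto (fun k : ℕ => ∑' l, ‖bc ((2 ^ (k ^ 2) : ℕ) : ℤ) l‖ ^ 2) atTop (𝓝 (∑' _ : ℕ, (0:ℝ))) := by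
    refine tendsto_tsum_of_dominated_convergence (sq_sum (4 * Real.pi)) (fun l => ?_)
      (Eventually.of_forall (fun k l => ?_))
    · refine tendsto_const_nhds.congr' ?_
      filter_upwards [eventually_ge_atTop l] with k hk
      rw [hz k l hk]; simp
    · rw [Real.norm_eq_abs, abs_of_nonneg (by positivity)]
      refine pow_le_pow_left₀ (norm_nonneg _) ?_ 2
      rcases le_or_gt l k with h | h
      · rw [hz k l h, norm_zero]; positivity
      · refine (bc_le _ l).trans ?_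
        have := pw (k ^ 2) l (by
          obtain ⟨j, rfl⟩ := Nat.exists_eq_add_of_lt h
          nlinarith [Nat.zero_le (j ^ 2), Nat.zero_le (j * k)])
        push_cast
        rw [abs_of_pos (by positivity)]
        calc _ = 2 * Real.pi * (2 ^ l * (2 ^ (k ^ 2) / 2 ^ (l ^ 2))) := by ring
          _ ≤ 2 * Real.pi * (2 * (1 / 2) ^ l) := by gcongr
          _ = _ := by ring
  rw [tsum_zero] at h1
  have h2 := h1.sqrt
  rw [Real.sqrt_zero] at h2
  refine h2.congr (fun k => ?_)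
  rw [rho, ← Real.sqrt_sq (norm_nonneg (bb _)), nsq]; rfl

noncomputable def oo (t : ℕ) : ℕ → ℝ := fun m => GG (rho (m + t))

def XX : Set (ℕ → ℝ) := closure (Set.range oo)

instance : CompactSpace XX := by
  refine isCompact_iff_compactSpace.1 ?_
  have h := isCompact_univ_pi (fun _ : ℕ => isCompact_Icc (a := (-1:ℝ)) (b := 1))
  refine h.of_isClosed_subset isClosed_closure (closure_minimal ?_ h.isClosed)
  rintro g ⟨n, rfl⟩ m -
  exact ⟨Real.neg_one_le_sin _, Real.sin_le_one _⟩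

lemma sh_mem (x : XX) : (fun m => x.1 (m + 1)) ∈ XX := by
  refine map_mem_closure (f := fun (g : ℕ → ℝ) m => g (m + 1)) (by fun_prop) x.2 ?_
  rintro g ⟨n, rfl⟩
  exact ⟨n + 1, funext (fun m => by simp only [oo]; congr 2; ring)⟩

def TT (x : XX) : XX := ⟨_, sh_mem x⟩

lemma TT_cont : Continuous TT :=
  Continuous.subtype_mk (f := fun (x : XX) m => x.1 (m + 1))
    (continuous_pi (fun m => (continuous_apply (m + 1)).comp continuous_subtype_val)) _

lemma TT_iter (n : ℕ) (x : XX) (m : ℕ) : (TT^[n] x).1 m = x.1 (m + n) := by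
  induction n generalizing m with
  | zero => rfl
  | succ n ih => rw [Function.iterate_succ_apply']; exact (ih (m + 1)).trans (by rw [add_right_comm, add_assoc])

noncomputable def pt (t : ℕ) : XX := ⟨oo t, subset_closure ⟨t, rfl⟩⟩

lemma TT_pt (n t : ℕ) : TT^[n] (pt t) = pt (n + t) :=
  Subtype.ext (funext (fun m => by rw [TT_iter]; simp [pt, oo, add_assoc]))

lemma dense_pt : DenseRange pt := by
  intro y
  rw [closure_subtype]
  refine closure_mono ?_ y.2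
  rintro g ⟨n, rfl⟩
  exact ⟨_, ⟨n, rfl⟩, rfl⟩

lemma trans (U V : Set XX) (hU : IsOpen U) (hV : IsOpen V) (U0 : U.Nonempty) (V0 : V.Nonempty) :
    ∃ n : ℕ, 1 ≤ n ∧ (V ∩ TT^[n] ⁻¹' U).Nonempty := by
  obtain ⟨i, hi⟩ := dense_pt.exists_mem_open hV V0
  obtain ⟨j, hj⟩ := dense_pt.exists_mem_open hU U0
  have h1 : Tendsto (fun k : ℕ => pt (j + 2 ^ (k ^ 2))) atTop (𝓝 (pt j)) := by
    rw [tendsto_subtype_rng]
    refine tendsto_pi_nhds.2 (fun m => ?_)
    rw [tendsto_iff_norm_sub_tendsto_zero]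
    refine squeeze_zero (fun k => norm_nonneg _) (fun k => ?_) rho_rec
    refine (G_lip (rho_nonneg _) (rho_nonneg _)).trans ?_
    rw [← add_assoc]; exact rho_diff _ _
  obtain ⟨k, hk1, hk2⟩ := ((h1.eventually (hU.mem_nhds hj)).and (eventually_ge_atTop i)).exists
  have h2 : k < 2 ^ (k ^ 2) := lt_of_le_of_lt (by nlinarith) (Nat.lt_two_pow_self)
  refine ⟨j + 2 ^ (k ^ 2) - i, by omega, pt i, hi, ?_⟩
  rw [Set.mem_preimage, TT_pt, show j + 2 ^ (k ^ 2) - i + i = j + 2 ^ (k ^ 2) by omega]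
  exact hk1

lemma const_mem (c : ℝ) (hc : ∀ R : ℝ, ∃ t, R ≤ t ∧ GG t = c) : (fun _ => c) ∈ XX := by
  have key : ∀ W : ℕ, ∃ n, ∀ m ≤ W, |oo n m - c| ≤ 1 / (W + 1 : ℝ) := by
    intro W
    obtain ⟨R, hR, hG⟩ := G_slow (1 / (W + 1 : ℝ)) (by positivity)
    have L0 := rho_nonneg 1
    obtain ⟨t, ht, htc⟩ := hc (2 * R + 2 * ((W + 1) * rho 1))
    have hex := rho_unb t
    classical
    have h1 := Nat.find_spec hex
    have t0 : 0 < t := by have : 0 ≤ (W + 1 : ℝ) * rho 1 := by positivity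
                          linarith
    obtain ⟨n, hn⟩ : ∃ n, Nat.find hex = n + 1 := Nat.exists_eq_succ_of_ne_zero (by
      intro h; rw [h, rho_zero] at h1; linarith)
    have h2 := Nat.find_min hex (m := n) (by omega)
    rw [hn] at h1
    refine ⟨n + 1, fun m hm => ?_⟩
    have h3 := abs_le.1 (rho_diff n 1)
    have h4 := abs_le.1 (rho_diff (n + 1) m)
    have h5 := rho_le m
    have h6 : (m:ℝ) * rho 1 ≤ W * rho 1 := by gcongr
    rw [← htc, oo, add_comm m]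
    push Not at h2
    refine hG _ _ ?_ ?_ ?_ ?_ <;> nlinarith [h3.2, h4.1, h4.2]
  choose n hn using key
  refine mem_closure_of_tendsto (f := fun W => oo (n W)) (b := atTop) (tendsto_pi_nhds.2 (fun m => ?_))
    (Eventually.of_forall (fun W => ⟨_, rfl⟩))
  rw [tendsto_iff_norm_sub_tendsto_zero]
  refine squeeze_zero' (Eventually.of_forall (fun k => norm_nonneg _)) ?_
    tendsto_one_div_add_atTop_nhds_zero_nat
  filter_upwards [eventually_ge_atTop m] with W hW using hn W m hW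

lemma one_mem : (fun _ => (1:ℝ)) ∈ XX := const_mem 1 (fun R => by
  obtain ⟨k, hk⟩ := exists_nat_ge (|R| + 1)
  have := Real.pi_gt_three
  have h2 := le_abs_self R
  have h3 := abs_nonneg R
  obtain ⟨t, ht, h⟩ := G_val (Real.pi / 2 + k * (2 * Real.pi)) (by nlinarith)
  exact ⟨t, by nlinarith, by rw [h, Real.sin_add_nat_mul_two_pi, Real.sin_pi_div_two]⟩)

lemma zero_mem : (fun _ => (0:ℝ)) ∈ XX := const_mem 0 (fun R => by
  obtain ⟨k, hk⟩ := exists_nat_ge (|R| + 1)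
  have := Real.pi_gt_three
  have h2 := le_abs_self R
  have h3 := abs_nonneg R
  obtain ⟨t, ht, h⟩ := G_val (k * Real.pi) (by nlinarith)
  exact ⟨t, by nlinarith, by rw [h, Real.sin_nat_mul_pi]⟩)

lemma window (d : XX → XX → ℝ) (hd : Continuous (fun p : XX × XX => d p.1 p.2)) (h0 : ∀ x, d x x = 0)
    (ε : ℝ) (hε : 0 < ε) : ∃ w : ℕ, ∀ x y : XX,
      (∀ m ≤ w, |x.1 m - y.1 m| ≤ 1 / (w + 1 : ℝ)) → d x y < ε := by
  by_contra hh
  push Not at hh
  choose x y h1 h2 using hh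
  obtain ⟨p, φ, hφ, hp⟩ := CompactSpace.tendsto_subseq (fun w => (x w, y w))
  have h3 : ε ≤ d p.1 p.2 := ge_of_tendsto' ((hd.tendsto p).comp hp) (fun w => h2 _)
  have h4 : p.1 = p.2 := by
    refine Subtype.ext (funext (fun m => ?_))
    have hc : Continuous (fun q : XX × XX => |q.1.1 m - q.2.1 m|) :=
      (((continuous_apply m).comp (continuous_subtype_val.comp continuous_fst)).sub
        ((continuous_apply m).comp (continuous_subtype_val.comp continuous_snd))).abs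
    have h5 := le_of_tendsto_of_tendsto ((hc.tendsto p).comp hp)
      (tendsto_one_div_add_atTop_nhds_zero_nat.comp hφ.tendsto_atTop) (by
        filter_upwards [hφ.tendsto_atTop.eventually_ge_atTop m] with k hk using h1 _ m hk)
    exact sub_eq_zero.1 (abs_nonpos_iff.1 h5)
  rw [h4, h0] at h3
  linarith

lemma null (d : XX → XX → ℝ) (hd : Continuous (fun p : XX × XX => d p.1 p.2)) (h0 : ∀ x, d x x = 0)
    (a : ℕ → ℕ) (ε : ℝ) (hε : 0 < ε) (δ : ℝ) (hδ : 0 < δ) : ∀ᶠ n in atTop, ∀ F : Finset XX,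
      (∀ x ∈ F, ∀ y ∈ F, x ≠ y → ∃ i < n, ε ≤ d (TT^[a i] x) (TT^[a i] y)) →
      (F.card : ℝ) ≤ Real.exp (δ * n) := by
  obtain ⟨w, hw⟩ := window d hd h0 ε hε
  obtain ⟨K, C, hc⟩ := cover (H := HH) (1 / (w + 1 : ℝ) / 2) (by positivity)
  have h1 := ((isLittleO_pow_exp_pos_mul_atTop K hδ).comp_tendsto tendsto_natCast_atTop_atTop).const_mul_left
    ((C * (w + 1) ^ K : ℕ) : ℝ)
  filter_upwards [h1.eventuallyLE, eventually_gt_atTop 0] with n hn hn0 F hF
  have : Nonempty (Fin n) := ⟨⟨0, hn0⟩⟩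
  obtain ⟨S, hS, hS2⟩ := hc (Fin n × Fin (w + 1)) (fun i => bb ((i.2 + a i.1 : ℕ) : ℤ))
  have h2 : ∀ x : XX, ∃ v ∈ S, ∀ i : Fin n × Fin (w + 1), |x.1 (i.2 + a i.1) - v i| ≤ 1 / (w + 1 : ℝ) / 2 := by
    intro x
    have hcl : IsClosed (⋃ v ∈ S, ⋂ i : Fin n × Fin (w + 1),
        {g : ℕ → ℝ | |g (i.2 + a i.1) - v i| ≤ 1 / (w + 1 : ℝ) / 2}) :=
      S.finite_toSet.isClosed_biUnion (fun v _ => isClosed_iInter (fun i =>
        isClosed_le (by fun_prop) continuous_const))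
    have := closure_minimal (s := Set.range oo) ?_ hcl x.2
    · simpa using this
    rintro g ⟨t, rfl⟩
    obtain ⟨v, hv, h⟩ := hS2 (bb (-(t:ℤ)))
    simp only [Set.mem_iUnion, Set.mem_iInter, Set.mem_ofPred_eq]
    refine ⟨v, hv, fun i => ?_⟩
    have := h i
    rw [norm_sub_rev, bb_sub, sub_neg_eq_add, ← Nat.cast_add] at this
    exact this
  choose v hv hv2 using h2
  have h3 : F.card ≤ S.card := by
    refine card_le_card_of_injOn v (fun x _ => hv x) (fun x hx y hy hxy => ?_)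
    by_contra hne
    obtain ⟨i, hi, h⟩ := hF x hx y hy hne
    refine absurd (hw _ _ (fun m hm => ?_)) (not_lt.2 h)
    have a1 := abs_le.1 (hv2 x (⟨i, hi⟩, ⟨m, by omega⟩))
    have a2 := abs_le.1 (hv2 y (⟨i, hi⟩, ⟨m, by omega⟩))
    rw [hxy] at a1
    rw [TT_iter, TT_iter, abs_le]
    constructor <;> linarith [a1.1, a1.2, a2.1, a2.2]
  simp only [Fintype.card_prod, Fintype.card_fin] at hS
  simp only [Function.comp, Real.norm_eq_abs, abs_of_pos (Real.exp_pos _)] at hn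
  refine le_trans ?_ ((le_abs_self _).trans hn)
  have := h3.trans hS
  rw [mul_pow, mul_comm (n ^ K), ← mul_assoc] at this
  exact_mod_cast this

end Pool.Agent.H.MP_0396c7_an
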